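import Pool.Agent.W969.MC.Avg5
import Pool.Agent.Y630.TF.Transfer

/-! Formulas with few or many satisfying assignments: every clause that carries a bit has many
possible places. -/

set_option autoImplicit false
set_option linter.unusedSectionVars false
set_option linter.unusedVariables false

namespace Pool.Agent.Q9h3.UC

open Finset Pool.Agent.H560R2 Pool.Agent.W969.MC Pool.Agent.Y630.TF

section

variable {V I : Type} [Fintype V] [DecidableEq V] [Fintype I] [DecidableEq I]
  {n m' r b2 t κ T : ℕ}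

/-- the blocks -/
abbrev Bk (I : Type) (m' r : ℕ) : Type := Fin m' × I × Fin r

/-- the variables: values, then selections with copies and weights -/
abbrev Vr (V I : Type) (m' r b2 t κ T : ℕ) : Type :=
  (Fin m' × V × Fin t) ⊕ (Bk I m' r × (Fin b2 → (Fin t → Bool)) × (Fin κ ⊕ Fin T))

/-- the bits: tuples of values in the copies -/
abbrev Xc (I : Type) (m' r b2 t : ℕ) : Type := Fin m' × (I × ((Fin r × Fin b2) → (Fin t → Bool)))

/-- a selection -/
def sx (b : Bk I m' r) (ρ : Fin b2 → (Fin t → Bool)) (c : Fin κ) : Vr V I m' r b2 t κ T :=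
  Sum.inr (b, ρ, Sum.inl c)

/-- a weight -/
def wz (b : Bk I m' r) (ρ : Fin b2 → (Fin t → Bool)) (c : Fin T) : Vr V I m' r b2 t κ T :=
  Sum.inr (b, ρ, Sum.inr c)

/-- the clauses that are always present -/
def Fx (ι : Vr V I m' r b2 t κ T ↪ Fin n) (h : I → (Fin r × Fin b2) → V)
    (c : Finset (Fin n × Bool)) : Prop :=
  (∃ b ρ e a l, c = {(ι (sx b ρ e), false), (ι (Sum.inl (b.1, h b.2.1 (b.2.2, a), l)), ρ a l)}) ∨
  (∃ b ρ e e', c = {(ι (sx b ρ e), false), (ι (sx b ρ e'), true)}) ∨
  (∃ b ρ e e', c = {(ι (wz b ρ e), false), (ι (sx b ρ e'), true)})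

open Classical in
/-- the clauses that are always present -/
noncomputable def base (ι : Vr V I m' r b2 t κ T ↪ Fin n) (h : I → (Fin r × Fin b2) → V) :
    Cla n r → Bool :=
  fun c => decide (Fx ι h c.1)

/-- a place of a bit -/
def plc (ι : Vr V I m' r b2 t κ T ↪ Fin n) (x : Xc I m' r b2 t) (g : Fin r → Fin κ) :
    Finset (Fin n × Bool) :=
  univ.image (fun s : Fin r => (ι (sx (x.1, x.2.1, s) (fun a => x.2.2 (s, a)) (g s)), false))

lemma plc_inj (hr : 0 < r) {ι : Vr V I m' r b2 t κ T ↪ Fin n} {x x' : Xc I m' r b2 t}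
    {g g' : Fin r → Fin κ} (hh : plc ι x g = plc ι x' g') : x = x' ∧ g = g' := by
  have key : ∀ s, x.1 = x'.1 ∧ x.2.1 = x'.2.1 ∧ (fun a => x.2.2 (s, a)) = (fun a => x'.2.2 (s, a)) ∧
      g s = g' s := by
    intro s
    have h1 : ((ι (sx (x.1, x.2.1, s) (fun a => x.2.2 (s, a)) (g s)), false) : Fin n × Bool) ∈
        plc ι x' g' := by
      rw [← hh]
      exact Finset.mem_image_of_mem _ (mem_univ s)
    obtain ⟨s', -, h2⟩ := Finset.mem_image.mp h1
    have h3 := ι.injective (Prod.ext_iff.mp h2).1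
    have h4 := Sum.inr.inj h3
    simp only [Prod.mk.injEq, Sum.inl.injEq] at h4
    obtain ⟨⟨h5, h6, rfl⟩, h7, h8⟩ := h4
    exact ⟨h5.symm, h6.symm, h7.symm, h8.symm⟩
  refine ⟨Prod.ext (key ⟨0, hr⟩).1 (Prod.ext (key ⟨0, hr⟩).2.1 ?_), ?_⟩
  · funext sa
    exact congrFun (key sa.1).2.2.1 sa.2
  · funext s
    exact (key s).2.2.2

/-- the clauses that carry bits -/
def slot (hr : 0 < r) (ι : Vr V I m' r b2 t κ T ↪ Fin n) :
    Xc I m' r b2 t × (Fin r → Fin κ) ↪ Cla n r where
  toFun z := ⟨plc ι z.1 z.2, by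
    unfold plc
    refine Finset.card_image_le.trans ?_
    rw [Finset.card_univ, Fintype.card_fin]⟩
  inj' := by
    rintro ⟨x, g⟩ ⟨x', g'⟩ hh
    have h1 : plc ι x g = plc ι x' g' := congrArg Subtype.val hh
    have h2 := plc_inj hr h1
    exact Prod.ext h2.1 h2.2

/-- the assignment satisfies the formula -/
def Sats (x : Cla n r → Bool) (α : Fin n → Bool) : Prop :=
  ∀ c : Cla n r, x c = true → ∃ p ∈ c.1, α p.1 = p.2

variable [NeZero κ] {ι : Vr V I m' r b2 t κ T ↪ Fin n} {h : I → (Fin r × Fin b2) → V}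
  {τ : Xc I m' r b2 t → (Fin r → Fin κ)} {y : Xc I m' r b2 t → Bool}

/-- the values of an assignment in a block -/
def vls (h : I → (Fin r × Fin b2) → V) (P : Fin m' × V × Fin t → Bool) (b : Bk I m' r) :
    Fin b2 → (Fin t → Bool) :=
  fun a l => P (b.1, h b.2.1 (b.2.2, a), l)

lemma sats_sel (hr : 2 ≤ r) {α : Fin n → Bool}
    (hα : Sats (host (slot (by omega : 0 < r) ι) (base ι h) τ y) α)
    {b : Bk I m' r} {ρ : Fin b2 → (Fin t → Bool)} {e : Fin κ} (h1 : α (ι (sx b ρ e)) = true) :
    ρ = vls h (fun z => α (ι (Sum.inl z))) b := by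
  classical
  funext a l
  have hc : ({(ι (sx b ρ e), false), (ι (Sum.inl (b.1, h b.2.1 (b.2.2, a), l)), ρ a l)} :
      Finset (Fin n × Bool)).card ≤ r := Finset.card_le_two.trans hr
  obtain ⟨p, hp, hp'⟩ := hα ⟨_, hc⟩ (host_true.mpr (Or.inl (decide_eq_true
    (Or.inl ⟨b, ρ, e, a, l, rfl⟩))))
  rw [Finset.mem_insert, Finset.mem_singleton] at hp
  rcases hp with rfl | rfl
  · have h2 : α (ι (sx b ρ e)) = false := hp'
    rw [h1] at h2
    exact absurd h2 (by simp)
  · exact hp'.symm

lemma sats_eq (hr : 2 ≤ r) {α : Fin n → Bool}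
    (hα : Sats (host (slot (by omega : 0 < r) ι) (base ι h) τ y) α)
    {b : Bk I m' r} {ρ : Fin b2 → (Fin t → Bool)} {e : Fin κ} (h1 : α (ι (sx b ρ e)) = true)
    (e' : Fin κ) : α (ι (sx b ρ e')) = true := by
  classical
  have hc : ({(ι (sx b ρ e), false), (ι (sx b ρ e'), true)} :
      Finset (Fin n × Bool)).card ≤ r := Finset.card_le_two.trans hr
  obtain ⟨p, hp, hp'⟩ := hα ⟨_, hc⟩ (host_true.mpr (Or.inl (decide_eq_true
    (Or.inr (Or.inl ⟨b, ρ, e, e', rfl⟩)))))
  rw [Finset.mem_insert, Finset.mem_singleton] at hp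
  rcases hp with rfl | rfl
  · have h2 : α (ι (sx b ρ e)) = false := hp'
    rw [h1] at h2
    exact absurd h2 (by simp)
  · exact hp'

lemma sats_wt (hr : 2 ≤ r) {α : Fin n → Bool}
    (hα : Sats (host (slot (by omega : 0 < r) ι) (base ι h) τ y) α)
    {b : Bk I m' r} {ρ : Fin b2 → (Fin t → Bool)} {e : Fin T} (h1 : α (ι (wz b ρ e)) = true)
    (e' : Fin κ) : α (ι (sx b ρ e')) = true := by
  classical
  have hc : ({(ι (wz b ρ e), false), (ι (sx b ρ e'), true)} :
      Finset (Fin n × Bool)).card ≤ r := Finset.card_le_two.trans hr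
  obtain ⟨p, hp, hp'⟩ := hα ⟨_, hc⟩ (host_true.mpr (Or.inl (decide_eq_true
    (Or.inr (Or.inr ⟨b, ρ, e, e', rfl⟩)))))
  rw [Finset.mem_insert, Finset.mem_singleton] at hp
  rcases hp with rfl | rfl
  · have h2 : α (ι (wz b ρ e)) = false := hp'
    rw [h1] at h2
    exact absurd h2 (by simp)
  · exact hp'

/-- a tuple that is ruled out -/
lemma sats_kill (hr : 2 ≤ r) {α : Fin n → Bool}
    (hα : Sats (host (slot (by omega : 0 < r) ι) (base ι h) τ y) α)
    {x : Xc I m' r b2 t} (hx : y x = true) :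
    ∃ s, ∀ e, α (ι (sx (x.1, x.2.1, s) (fun a => x.2.2 (s, a)) e)) = false := by
  classical
  obtain ⟨p, hp, hp'⟩ := hα (slot (by omega : 0 < r) ι (x, τ x)) (host_true.mpr
    (Or.inr ⟨x, hx, rfl⟩))
  have hp2 : p ∈ plc ι x (τ x) := hp
  obtain ⟨s, -, rfl⟩ := Finset.mem_image.mp hp2
  refine ⟨s, fun e => ?_⟩
  by_contra hcon
  rw [Bool.not_eq_false] at hcon
  have h2 := sats_eq hr hα hcon (τ x s)
  have h3 : α (ι (sx (x.1, x.2.1, s) (fun a => x.2.2 (s, a)) (τ x s))) = false := hp'
  rw [h2] at h3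
  exact absurd h3 (by simp)

/-- the data of an assignment -/
abbrev Dat (V I : Type) (ι : Vr V I m' r b2 t κ T ↪ Fin n) : Type :=
  (Fin m' × V × Fin t → Bool) × (Bk I m' r → Bool) ×
    ((b0 : Bk I m' r) × ({b : Bk I m' r // b ≠ b0} → (Fin T → Bool))) ×
    ({v : Fin n // v ∉ Set.range ι} → Bool)

/-- few satisfying assignments -/
theorem few_sats (hr : 2 ≤ r) (j : Fin m')
    (hj : ∀ p : V → (Fin t → Bool), ∃ i, y (j, i, fun a => p (h i a)) = true) :
    {α | Sats (host (slot (by omega : 0 < r) ι) (base ι h) τ y) α}.ncard ≤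
      2 ^ (m' * (Fintype.card V * t) + 2 * (m' * (Fintype.card I * r)) +
        T * (m' * (Fintype.card I * r) - 1) +
        (n - Fintype.card (Vr V I m' r b2 t κ T))) := by
  classical
  have h0 : 0 < r := by omega
  have hκ : 0 < κ := Nat.pos_of_ne_zero (NeZero.ne κ)
  set F := host (slot h0 ι) (base ι h) τ y with hF
  -- a block without selection
  have hex : ∀ α : Fin n → Bool, Sats F α → ∃ b0 : Bk I m' r, ∀ e,
      α (ι (sx b0 (vls h (fun z => α (ι (Sum.inl z))) b0) e)) = false := by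
    intro α hα
    obtain ⟨i, hi⟩ := hj (fun v l => α (ι (Sum.inl (j, v, l))))
    obtain ⟨s, hs⟩ := sats_kill hr hα hi
    exact ⟨(j, i, s), hs⟩
  obtain ⟨i0, -⟩ := hj (fun _ _ => false)
  have hne : Nonempty (Bk I m' r) := ⟨(j, i0, ⟨0, h0⟩)⟩
  choose! b0 hb0 using hex
  let Φ : (Fin n → Bool) → Dat V I ι := fun α =>
    (fun z => α (ι (Sum.inl z)),
      fun b => α (ι (sx b (vls h (fun z => α (ι (Sum.inl z))) b) ⟨0, hκ⟩)),
      ⟨b0 α, fun b l => α (ι (wz b.1 (vls h (fun z => α (ι (Sum.inl z))) b.1) l))⟩,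
      fun v => α v.1)
  have hinj : Set.InjOn Φ {α | Sats F α} := by
    intro α hα α' hα' hΦ
    have hα1 : Sats F α := hα
    have hα1' : Sats F α' := hα'
    have e1 : (fun z => α (ι (Sum.inl z))) = (fun z => α' (ι (Sum.inl z))) :=
      congrArg (fun d : Dat V I ι => d.1) hΦ
    have e2 : (fun b => α (ι (sx b (vls h (fun z => α (ι (Sum.inl z))) b) ⟨0, hκ⟩))) =
        (fun b => α' (ι (sx b (vls h (fun z => α' (ι (Sum.inl z))) b) ⟨0, hκ⟩))) :=
      congrArg (fun d : Dat V I ι => d.2.1) hΦ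
    have e3 : (⟨b0 α, fun b l => α (ι (wz b.1 (vls h (fun z => α (ι (Sum.inl z))) b.1) l))⟩ :
        ((b0 : Bk I m' r) × ({b : Bk I m' r // b ≠ b0} → (Fin T → Bool)))) =
        ⟨b0 α', fun b l => α' (ι (wz b.1 (vls h (fun z => α' (ι (Sum.inl z))) b.1) l))⟩ :=
      congrArg (fun d : Dat V I ι => d.2.2.1) hΦ
    have e4 : (fun v : {v : Fin n // v ∉ Set.range ι} => α v.1) = (fun v => α' v.1) :=
      congrArg (fun d : Dat V I ι => d.2.2.2) hΦ
    have e3a : b0 α = b0 α' := (Sigma.mk.inj_iff.mp e3).1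
    have e3b : ∀ b (l : Fin T), b ≠ b0 α →
        α (ι (wz b (vls h (fun z => α (ι (Sum.inl z))) b) l)) =
        α' (ι (wz b (vls h (fun z => α' (ι (Sum.inl z))) b) l)) := by
      intro b l hb
      have key : ∀ (c c' : Bk I m' r) (f : {b : Bk I m' r // b ≠ c} → (Fin T → Bool))
          (f' : {b : Bk I m' r // b ≠ c'} → (Fin T → Bool)), c = c' → HEq f f' →
          ∀ (hb : b ≠ c) (hb' : b ≠ c'), f ⟨b, hb⟩ l = f' ⟨b, hb'⟩ l := by
        rintro c c' f f' rfl hf hb hb'
        rw [eq_of_heq hf]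
      exact key _ _ _ _ e3a (Sigma.mk.inj_iff.mp e3).2 hb (by rw [← e3a]; exact hb)
    -- the selections
    have hsel : ∀ b ρ e, α (ι (sx b ρ e)) = α' (ι (sx b ρ e)) := by
      intro b ρ e
      by_cases hρ : ρ = vls h (fun z => α (ι (Sum.inl z))) b
      · have hρ' : ρ = vls h (fun z => α' (ι (Sum.inl z))) b := by rw [hρ, e1]
        have k1 : α (ι (sx b ρ e)) = α (ι (sx b ρ ⟨0, hκ⟩)) := by
          rcases hv : α (ι (sx b ρ ⟨0, hκ⟩)) with _ | _
          · by_contra hcon
            rw [Bool.not_eq_false] at hcon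
            have := sats_eq hr hα1 hcon ⟨0, hκ⟩
            rw [hv] at this
            exact absurd this (by simp)
          · exact sats_eq hr hα1 hv e
        have k2 : α' (ι (sx b ρ e)) = α' (ι (sx b ρ ⟨0, hκ⟩)) := by
          rcases hv : α' (ι (sx b ρ ⟨0, hκ⟩)) with _ | _
          · by_contra hcon
            rw [Bool.not_eq_false] at hcon
            have := sats_eq hr hα1' hcon ⟨0, hκ⟩
            rw [hv] at this
            exact absurd this (by simp)
          · exact sats_eq hr hα1' hv e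
        rw [k1, k2]
        have k3 : α (ι (sx b (vls h (fun z => α (ι (Sum.inl z))) b) ⟨0, hκ⟩)) =
            α' (ι (sx b (vls h (fun z => α' (ι (Sum.inl z))) b) ⟨0, hκ⟩)) := congrFun e2 b
        rw [← hρ, ← hρ'] at k3
        exact k3
      · have hρ' : ρ ≠ vls h (fun z => α' (ι (Sum.inl z))) b := by rw [← e1]; exact hρ
        have k1 : α (ι (sx b ρ e)) = false := by
          by_contra hcon
          rw [Bool.not_eq_false] at hcon
          exact hρ (sats_sel hr hα1 hcon)
        have k2 : α' (ι (sx b ρ e)) = false := by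
          by_contra hcon
          rw [Bool.not_eq_false] at hcon
          exact hρ' (sats_sel hr hα1' hcon)
        rw [k1, k2]
    -- the weights
    have hwt : ∀ b ρ e, α (ι (wz b ρ e)) = α' (ι (wz b ρ e)) := by
      intro b ρ e
      by_cases hz : α (ι (sx b ρ ⟨0, hκ⟩)) = true
      · have hρ := sats_sel hr hα1 hz
        have hρ' : ρ = vls h (fun z => α' (ι (Sum.inl z))) b := by rw [hρ, e1]
        have hb : b ≠ b0 α := by
          intro hb
          have k1 := hb0 α hα1 ⟨0, hκ⟩
          rw [← hb, ← hρ, hz] at k1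
          exact absurd k1 (by simp)
        have k3 := e3b b e hb
        rw [← hρ, ← hρ'] at k3
        exact k3
      · have k1 : α (ι (wz b ρ e)) = false := by
          by_contra hcon
          rw [Bool.not_eq_false] at hcon
          exact hz (sats_wt hr hα1 hcon ⟨0, hκ⟩)
        have k2 : α' (ι (wz b ρ e)) = false := by
          by_contra hcon
          rw [Bool.not_eq_false] at hcon
          apply hz
          rw [hsel]
          exact sats_wt hr hα1' hcon ⟨0, hκ⟩
        rw [k1, k2]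
    funext v
    by_cases hv : v ∈ Set.range ι
    · obtain ⟨z, rfl⟩ := hv
      rcases z with z | ⟨b, ρ, e | e⟩
      · exact congrFun e1 z
      · exact hsel b ρ e
      · exact hwt b ρ e
    · exact congrFun e4 ⟨v, hv⟩
  have hcardι : Fintype.card {v : Fin n // v ∉ Set.range ι} =
      n - Fintype.card (Vr V I m' r b2 t κ T) := by
    have k1 : Fintype.card {v : Fin n // v ∈ Set.range ι} = Fintype.card (Vr V I m' r b2 t κ T) :=
      (Fintype.card_congr (Equiv.ofInjective ι ι.injective)).symm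
    rw [Fintype.card_subtype_compl, k1, Fintype.card_fin]
  have hBk : Fintype.card (Bk I m' r) = m' * (Fintype.card I * r) := by
    simp only [Fintype.card_prod, Fintype.card_fin]
  have hcard : Nat.card (Dat V I ι) ≤
      2 ^ (m' * (Fintype.card V * t) + 2 * (m' * (Fintype.card I * r)) +
        T * (m' * (Fintype.card I * r) - 1) +
        (n - Fintype.card (Vr V I m' r b2 t κ T))) := by
    have k1 : ∀ b0 : Bk I m' r, Nat.card ({b : Bk I m' r // b ≠ b0} → (Fin T → Bool)) =
        2 ^ (T * (m' * (Fintype.card I * r) - 1)) := by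
      intro b0
      rw [Nat.card_eq_fintype_card, Fintype.card_fun, Fintype.card_fun, Fintype.card_bool,
        Fintype.card_fin, Fintype.card_subtype_compl, Fintype.card_subtype_eq, hBk, ← pow_mul]
    have k2 : Nat.card (Fin m' × V × Fin t → Bool) = 2 ^ (m' * (Fintype.card V * t)) := by
      rw [Nat.card_eq_fintype_card, Fintype.card_fun, Fintype.card_bool, Fintype.card_prod,
        Fintype.card_prod, Fintype.card_fin, Fintype.card_fin]
    have k3 : Nat.card (Bk I m' r → Bool) = 2 ^ (m' * (Fintype.card I * r)) := by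
      rw [Nat.card_eq_fintype_card, Fintype.card_fun, Fintype.card_bool, hBk]
    have k4 : Nat.card ((b0 : Bk I m' r) × ({b : Bk I m' r // b ≠ b0} → (Fin T → Bool))) =
        (m' * (Fintype.card I * r)) * 2 ^ (T * (m' * (Fintype.card I * r) - 1)) := by
      rw [Nat.card_sigma, Finset.sum_congr rfl (fun b _ => k1 b), Finset.sum_const,
        Finset.card_univ, hBk, smul_eq_mul]
    have k5 : Nat.card ({v : Fin n // v ∉ Set.range ι} → Bool) =
        2 ^ (n - Fintype.card (Vr V I m' r b2 t κ T)) := by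
      rw [Nat.card_eq_fintype_card, Fintype.card_fun, Fintype.card_bool, hcardι]
    have k6 : Nat.card (Dat V I ι) = Nat.card (Fin m' × V × Fin t → Bool) *
        (Nat.card (Bk I m' r → Bool) *
          (Nat.card ((b0 : Bk I m' r) × ({b : Bk I m' r // b ≠ b0} → (Fin T → Bool))) *
            Nat.card ({v : Fin n // v ∉ Set.range ι} → Bool))) := by
      unfold Dat
      rw [Nat.card_prod, Nat.card_prod, Nat.card_prod]
    rw [k6, k2, k3, k4, k5]
    set B := m' * (Fintype.card I * r) with hB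
    set U := n - Fintype.card (Vr V I m' r b2 t κ T) with hU
    have k7 : B ≤ 2 ^ B := Nat.lt_two_pow_self.le
    calc 2 ^ (m' * (Fintype.card V * t)) * (2 ^ B * (B * 2 ^ (T * (B - 1)) * 2 ^ U)) ≤
          2 ^ (m' * (Fintype.card V * t)) * (2 ^ B * (2 ^ B * 2 ^ (T * (B - 1)) * 2 ^ U)) := by
          gcongr
      _ = 2 ^ (m' * (Fintype.card V * t) + 2 * B + T * (B - 1) + U) := by
          rw [pow_add, pow_add, pow_add, two_mul, pow_add]
          ring
  have hfin : Finite (Dat V I ι) := by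
    unfold Dat
    infer_instance
  refine le_trans ?_ hcard
  rw [← Set.ncard_univ]
  exact Set.ncard_le_ncard_of_injOn Φ (fun α _ => Set.mem_univ _) hinj Set.finite_univ

/-- many satisfying assignments -/
theorem many_sats (hr : 2 ≤ r)
    (hj : ∀ j, ∃ p : V → (Fin t → Bool), ∀ i, y (j, i, fun a => p (h i a)) = false) :
    2 ^ (T * (m' * (Fintype.card I * r)) + (n - Fintype.card (Vr V I m' r b2 t κ T))) ≤
      {α | Sats (host (slot (by omega : 0 < r) ι) (base ι h) τ y) α}.ncard := by
  classical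
  have h0 : 0 < r := by omega
  have hκ : 0 < κ := Nat.pos_of_ne_zero (NeZero.ne κ)
  set F := host (slot h0 ι) (base ι h) τ y with hF
  choose p hp using hj
  let vl : (Bk I m' r → (Fin T → Bool)) → Vr V I m' r b2 t κ T → Bool := fun z v =>
    Sum.elim (fun q => p q.1 q.2.1 q.2.2)
      (fun q => decide (q.2.1 = fun a => p q.1.1 (h q.1.2.1 (q.1.2.2, a))) &&
        Sum.elim (fun _ => true) (fun l => z q.1 l) q.2.2) v
  let Ψ : (Bk I m' r → (Fin T → Bool)) × ({v : Fin n // v ∉ Set.range ι} → Bool) →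
      (Fin n → Bool) := fun zu v =>
    if hv : v ∈ Set.range ι then vl zu.1 hv.choose else zu.2 ⟨v, hv⟩
  have hΨ : ∀ zu z, Ψ zu (ι z) = vl zu.1 z := by
    intro zu z
    have hv : ι z ∈ Set.range ι := ⟨z, rfl⟩
    simp only [Ψ, dif_pos hv]
    rw [ι.injective hv.choose_spec]
  have hsat : ∀ zu, Sats F (Ψ zu) := by
    intro zu c hc
    rcases host_true.mp hc with h1 | ⟨x, hx, h1⟩
    · have h2 : Fx ι h c.1 := of_decide_eq_true h1
      rcases h2 with ⟨b, ρ, e, a, l, h2⟩ | ⟨b, ρ, e, e', h2⟩ | ⟨b, ρ, e, e', h2⟩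
      · rw [h2]
        by_cases hρ : ρ = fun a => p b.1 (h b.2.1 (b.2.2, a))
        · refine ⟨(ι (Sum.inl (b.1, h b.2.1 (b.2.2, a), l)), ρ a l), by simp, ?_⟩
          rw [hΨ]
          show p b.1 (h b.2.1 (b.2.2, a)) l = ρ a l
          rw [hρ]
        · refine ⟨(ι (sx b ρ e), false), by simp, ?_⟩
          rw [hΨ]
          show (decide (ρ = fun a => p b.1 (h b.2.1 (b.2.2, a))) && true) = false
          rw [decide_eq_false hρ]
          rfl
      · rw [h2]
        by_cases hρ : ρ = fun a => p b.1 (h b.2.1 (b.2.2, a))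
        · refine ⟨(ι (sx b ρ e'), true), by simp, ?_⟩
          rw [hΨ]
          show (decide (ρ = fun a => p b.1 (h b.2.1 (b.2.2, a))) && true) = true
          rw [decide_eq_true hρ]
          rfl
        · refine ⟨(ι (sx b ρ e), false), by simp, ?_⟩
          rw [hΨ]
          show (decide (ρ = fun a => p b.1 (h b.2.1 (b.2.2, a))) && true) = false
          rw [decide_eq_false hρ]
          rfl
      · rw [h2]
        by_cases hρ : ρ = fun a => p b.1 (h b.2.1 (b.2.2, a))
        · refine ⟨(ι (sx b ρ e'), true), by simp, ?_⟩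
          rw [hΨ]
          show (decide (ρ = fun a => p b.1 (h b.2.1 (b.2.2, a))) && true) = true
          rw [decide_eq_true hρ]
          rfl
        · refine ⟨(ι (wz b ρ e), false), by simp, ?_⟩
          rw [hΨ]
          show (decide (ρ = fun a => p b.1 (h b.2.1 (b.2.2, a))) && zu.1 b e) = false
          rw [decide_eq_false hρ]
          rfl
    · have h2 : c.1 = plc ι x (τ x) := by rw [← h1]; rfl
      rw [h2]
      have h3 : ∃ a, x.2.2 a ≠ p x.1 (h x.2.1 a) := by
        by_contra hcon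
        push Not at hcon
        have h4 : x = (x.1, x.2.1, fun a => p x.1 (h x.2.1 a)) := by
          refine Prod.ext rfl (Prod.ext rfl ?_)
          funext a
          exact hcon a
        have h5 := hp x.1 x.2.1
        rw [← h4, hx] at h5
        exact absurd h5 (by simp)
      obtain ⟨⟨s, a⟩, h3⟩ := h3
      refine ⟨(ι (sx (x.1, x.2.1, s) (fun a => x.2.2 (s, a)) (τ x s)), false),
        Finset.mem_image_of_mem _ (mem_univ s), ?_⟩
      rw [hΨ]
      show (decide ((fun a => x.2.2 (s, a)) = fun a => p x.1 (h x.2.1 (s, a))) && true) = false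
      rw [decide_eq_false (fun hcon => h3 (congrFun hcon a))]
      rfl
  have hinj : Function.Injective Ψ := by
    rintro ⟨z, u⟩ ⟨z', u'⟩ hh
    refine Prod.ext ?_ ?_
    · funext b l
      have h1 : Ψ (z, u) (ι (wz b (fun a => p b.1 (h b.2.1 (b.2.2, a))) l)) =
          Ψ (z', u') (ι (wz b (fun a => p b.1 (h b.2.1 (b.2.2, a))) l)) := by rw [hh]
      rw [hΨ, hΨ] at h1
      have h2 : ∀ z : Bk I m' r → (Fin T → Bool),
          vl z (wz b (fun a => p b.1 (h b.2.1 (b.2.2, a))) l) = z b l := by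
        intro z
        show (decide ((fun a => p b.1 (h b.2.1 (b.2.2, a))) =
          fun a => p b.1 (h b.2.1 (b.2.2, a))) && z b l) = z b l
        rw [decide_eq_true rfl]
        rfl
      rw [h2, h2] at h1
      exact h1
    · funext v
      have h1 := congrFun hh v.1
      simp only [Ψ, dif_neg v.2] at h1
      exact h1
  have hcardι : Fintype.card {v : Fin n // v ∉ Set.range ι} =
      n - Fintype.card (Vr V I m' r b2 t κ T) := by
    have k1 : Fintype.card {v : Fin n // v ∈ Set.range ι} = Fintype.card (Vr V I m' r b2 t κ T) :=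
      (Fintype.card_congr (Equiv.ofInjective ι ι.injective)).symm
    rw [Fintype.card_subtype_compl, k1, Fintype.card_fin]
  have hBk : Fintype.card (Bk I m' r) = m' * (Fintype.card I * r) := by
    simp only [Fintype.card_prod, Fintype.card_fin]
  have hcard : Fintype.card ((Bk I m' r → (Fin T → Bool)) ×
      ({v : Fin n // v ∉ Set.range ι} → Bool)) =
      2 ^ (T * (m' * (Fintype.card I * r)) + (n - Fintype.card (Vr V I m' r b2 t κ T))) := by
    rw [Fintype.card_prod, Fintype.card_fun, Fintype.card_fun, Fintype.card_fun, hcardι,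
      Fintype.card_bool, Fintype.card_fin, hBk, ← pow_mul, ← pow_add]
  rw [← hcard, ← Nat.card_eq_fintype_card, ← Set.ncard_univ]
  exact Set.ncard_le_ncard_of_injOn Ψ (fun zu _ => hsat zu) hinj.injOn (Set.toFinite _)

end

end Pool.Agent.Q9h3.UC
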