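import Pool.Agent.Q9h3.UC.Cnt
import Pool.Agent.Y630.TF.Subst
import Pool.Agent.Y630.TR.Lsub

/-! Counting satisfying assignments, circuits whose negated inputs are unreliable: the lower bound
with integer parameters. -/

set_option autoImplicit false
set_option linter.unusedSectionVars false
set_option linter.unusedVariables false

namespace Pool.Agent.Q9h3.UC

open Finset Pool.Agent.H560R2 Pool.Agent.W969.MC Pool.Agent.Y630.TF Pool.Agent.Y630.NW

lemma mem_tu_gr {V I A Λ : Type} [Fintype V] [DecidableEq V] [Fintype I] [DecidableEq I]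
    [Fintype A] [DecidableEq A] [Fintype Λ] [DecidableEq Λ] {h : I → A → V} {p : V → Λ}
    {u : I × (A → Λ)} : u ∈ tu h (gr p) ↔ u.2 = fun a => p (h u.1 a) := by
  classical
  unfold tu
  rw [Finset.mem_filter]
  constructor
  · rintro ⟨-, h1⟩
    funext a
    have h3 := h1 a
    rw [mem_gr] at h3
    exact h3.symm
  · intro h1
    refine ⟨mem_univ _, fun a => ?_⟩
    rw [mem_gr, h1]

section

variable {I : Type} [Fintype I] [DecidableEq I] {m' r b2 t : ℕ}

open Classical in
/-- the bits of an instance of the constraint satisfaction problem -/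
noncomputable def encC (y : Fin m' → Set (I × ((Fin r × Fin b2) → (Fin t → Bool)))) :
    Xc I m' r b2 t → Bool :=
  fun x => decide (x.2 ∈ y x.1)

lemma encC_true {y : Fin m' → Set (I × ((Fin r × Fin b2) → (Fin t → Bool)))}
    {x : Xc I m' r b2 t} : encC y x = true ↔ x.2 ∈ y x.1 := by
  classical
  unfold encC
  rw [decide_eq_true_iff]

lemma encC_mono {y y' : Fin m' → Set (I × ((Fin r × Fin b2) → (Fin t → Bool)))}
    (hy : ∀ j, y j ⊆ y' j) : encC y ≤ encC y' := by
  intro x
  rcases hx : encC y x with _ | _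
  · exact Bool.false_le _
  · rw [encC_true.mpr (hy _ (encC_true.mp hx))]

lemma encC_narrow (y : Fin m' → Set (I × ((Fin r × Fin b2) → (Fin t → Bool)))) (J : Fin m')
    (x : Xc I m' r b2 t) :
    ∃ T' : Finset (I × ((Fin r × Fin b2) → (Fin t → Bool))), T'.card ≤ 1 ∧
      ∀ z z' : Set (I × ((Fin r × Fin b2) → (Fin t → Bool))), (∀ u ∈ T', u ∈ z → u ∈ z') →
        encC (Function.update y J z) x = true → encC (Function.update y J z') x = true := by
  classical
  refine ⟨{x.2}, by simp, fun z z' hz hx => ?_⟩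
  have h1 := encC_true.mp hx
  refine encC_true.mpr ?_
  by_cases hj : x.1 = J
  · rw [hj, Function.update_self] at h1 ⊢
    exact hz _ (Finset.mem_singleton_self _) h1
  · rw [Function.update_of_ne hj] at h1 ⊢
    exact h1

end

/-- the lower bound with integer parameters -/
theorem cnt_fault_param {n r κ T D lo hi : ℕ} {R : Type} [Fintype R] [Nonempty R]
    {b2 b t M m s w m' : ℕ} (hr : 2 ≤ r) (P : Pars r b2 b (2 ^ t) M m s w)
    (hκ : 0 < κ) (hD : 0 < D)
    (hn : m' * (m * t) + m' * (M * r) * ((2 ^ t) ^ b2 * (κ + T)) ≤ n)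
    (C : R → RC (Cla n r × Bool)) (hT : ∀ ρ, (C ρ).T = ∅) (A0 g : ℝ)
    (hbad : ((m' * (M * (2 ^ t) ^ (r * b2)) : ℕ) : ℝ) * (1 - 1 / (D : ℝ)) ^ (κ ^ r) ≤ g / 2)
    (hlo : m' * (m * t) + 2 * (m' * (M * r)) + T * (m' * (M * r) - 1) +
      (n - (m' * (m * t) + m' * (M * r) * ((2 ^ t) ^ b2 * (κ + T)))) ≤ lo)
    (hhi : hi ≤ T * (m' * (M * r)) +
      (n - (m' * (m * t) + m' * (M * r) * ((2 ^ t) ^ b2 * (κ + T)))))
    (hyes : ∀ x : Cla n r → Bool, {α | Sats x α}.ncard ≤ 2 ^ lo →
      (A0 + g) * (Fintype.card R * (D : ℝ) ^ Fintype.card (Cla n r)) ≤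
        ({z : R × (Cla n r → Fin D) | (C z.1).acc (lit x (Flt z.2))}.ncard : ℝ))
    (hno : ∀ x : Cla n r → Bool, 2 ^ hi ≤ {α | Sats x α}.ncard →
      ({ρ : R | (C ρ).acc (lit x ∅)}.ncard : ℝ) ≤ A0 * Fintype.card R)
    (hm' : 1 ≤ g / 2 / 2 * m')
    (hlen : ∀ ρ, (C ρ).S ≤ (2 ^ t + 1) ^ m) (hq : 16 / ((2 ^ t : ℕ) : ℝ) ≤ g / 2)
    (hlt : ∀ ρ, 16 * ((C ρ).S : ℝ) * 2 ^ (w / (2 * b) / b + 1) <
      g / 2 * ((2 ^ t : ℕ) : ℝ) ^ (w / (2 * b) / b + 1)) : False := by
  classical
  obtain ⟨h, hG0⟩ := P.good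
  have hΛ : Fintype.card (Fin t → Bool) = 2 ^ t := by
    rw [Fintype.card_fun, Fintype.card_bool, Fintype.card_fin]
  have hG : Good h (Fin t → Bool) b s w := by
    have hc : Fintype.card (Fin t → Bool) = Fintype.card (Fin (2 ^ t)) := by
      rw [hΛ, Fintype.card_fin]
    refine ⟨hG0.hb, hG0.hA, hG0.hE, hG0.hw, hG0.hws, hG0.hV, hG0.hI, ?_, ?_⟩
    · rw [hc]; exact hG0.hq
    · rw [hc]; exact hG0.hstar
  have hrpos : 0 < r := by omega
  have _ : NeZero κ := ⟨hκ.ne'⟩
  have : Nonempty (Fin r × Fin b2) := ⟨(⟨0, hrpos⟩, ⟨0, P.hb2⟩)⟩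
  have hcardV : Fintype.card (Vr (Fin m) (Fin M) m' r b2 t κ T) =
      m' * (m * t) + m' * (M * r) * ((2 ^ t) ^ b2 * (κ + T)) := by
    simp only [Fintype.card_sum, Fintype.card_prod, Fintype.card_fin, Fintype.card_fun,
      Fintype.card_bool]
  have hcard : Fintype.card (Vr (Fin m) (Fin M) m' r b2 t κ T) ≤ Fintype.card (Fin n) := by
    rw [hcardV, Fintype.card_fin]
    exact hn
  obtain ⟨ι⟩ := Function.Embedding.nonempty_of_card_le hcard
  have hMpos : 0 < M := by
    have := P.hM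
    have := P.hm
    omega
  have hm'pos : 0 < m' := by
    rcases Nat.eq_zero_or_pos m' with h0 | h0
    · rw [h0] at hm'
      norm_num at hm'
    · exact h0
  have x0 : Xc (Fin M) m' r b2 t := (⟨0, hm'pos⟩, ⟨0, hMpos⟩, fun _ _ => false)
  -- the circuits on the bits
  have hex : ∀ ω : R × (Xc (Fin M) m' r b2 t → (Fin r → Fin κ)),
      ∃ C' : RC (Xc (Fin M) m' r b2 t), C'.size = (C ω.1).S ∧ C'.free = 1 ∧
        ∀ y, C'.acc y ↔ (C ω.1).acc (rlit (slot hrpos ι) (base ι h) ω.2 y) := by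
    intro ω
    obtain ⟨σ, c, hσ⟩ := Pool.Agent.Y630.TR.rlit_lsb (slot hrpos ι) (base ι h) ω.2
    obtain ⟨C', hsize, hfree, -, hacc⟩ := subst (C ω.1) x0 σ c
    refine ⟨C', ?_, ?_, fun y => ?_⟩
    · rw [hsize]
      unfold RC.size
      rw [hT ω.1, Finset.sum_empty, Nat.add_zero]
    · rw [hfree]
      unfold RC.free
      rw [hT ω.1, Finset.prod_empty]
    · rw [hacc, hσ]
      rfl
  choose C' hsize hfree hacc using hex
  refine csp_rand_dual hG (m' := m') C' encC (fun y y' hy => encC_mono hy)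
    (fun y J x => encC_narrow y J x) A0 (g / 2) ?_ ?_ ?_ ?_ ?_ ?_
  · rintro y ⟨j, hj⟩
    have h3 := transfer_yes (slot hrpos ι) (base ι h) hD
      (fun ρ v => (C ρ).acc v) (fun ρ u v huv hu => acc_mono _ (hT ρ) huv hu) A0 g
      (by
        rw [Fintype.card_fun, Fintype.card_fin, Fintype.card_fin]
        have h4 : Fintype.card (Xc (Fin M) m' r b2 t) = m' * (M * (2 ^ t) ^ (r * b2)) := by
          simp only [Fintype.card_prod, Fintype.card_fin, Fintype.card_fun, Fintype.card_bool]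
        rw [h4]
        exact hbad) (encC y) (fun τ => hyes _ (by
          have h5 := few_sats (ι := ι) (h := h) (τ := τ) (y := encC y) hr j (by
            intro p
            obtain ⟨u, hu1, hu2⟩ := hj p
            refine ⟨u.1, encC_true.mpr ?_⟩
            have h6 := mem_tu_gr.mp hu1
            show (u.1, fun a => p (h u.1 a)) ∈ y j
            rw [← h6]
            exact hu2)
          refine h5.trans (Nat.pow_le_pow_right (by norm_num) ?_)
          rw [hcardV, Fintype.card_fin, Fintype.card_fin]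
          exact hlo))
    refine h3.trans (le_of_eq ?_)
    congr 2
    ext ω
    exact (hacc ω _).symm
  · intro y hy
    push Not at hy
    have h3 := transfer_no (slot hrpos ι) (base ι h)
      (fun ρ v => (C ρ).acc v) (fun ρ u v huv hu => acc_mono _ (hT ρ) huv hu) A0 (encC y)
      (fun τ => hno _ (by
        have h5 := many_sats (ι := ι) (h := h) (τ := τ) (y := encC y) hr (by
          intro j
          obtain ⟨p, hp⟩ := hy j
          refine ⟨p, fun i => ?_⟩
          rw [← Bool.not_eq_true, encC_true]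
          exact hp (i, fun a => p (h i a)) (mem_tu_gr.mpr rfl))
        refine le_trans (Nat.pow_le_pow_right (by norm_num) ?_) h5
        rw [hcardV, Fintype.card_fin]
        exact hhi))
    refine (le_of_eq ?_).trans h3
    congr 2
    ext ω
    exact hacc ω _
  · intro ω
    rw [hfree, Nat.cast_one]
    exact hm'
  · intro ω
    rw [hsize, hΛ, Fintype.card_fin]
    exact hlen ω.1
  · rw [hΛ]
    exact hq
  · intro ω
    rw [hsize, hΛ]
    exact hlt ω.1

end Pool.Agent.Q9h3.UC
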