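import Pool.Agent.Q9h3.UC.Low
import Pool.Agent.Q9h3.UN.Poly

/-! Counting satisfying assignments, circuits whose negated inputs are unreliable: the lower
bound. -/

set_option autoImplicit false
set_option linter.unusedSectionVars false
set_option linter.unusedVariables false

namespace Pool.Agent.Q9h3.UC

open Finset Pool.Agent.H560R2 Pool.Agent.W969.MC Pool.Agent.Y630.TF Pool.Agent.Y630.NW
open Pool.Agent.Q9h3.UN (places card_bits)

/-- the number of variables without copies -/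
lemma choose_n2 {ε δ : ℝ} (hε : 0 < ε) (hε1 : ε ≤ 1 / 2) (hδ : 0 < δ) (r : ℕ) (hr : 2 ≤ r)
    (n0 : ℕ) :
    ∃ ν0 : ℕ, ∀ ν N k : ℕ, ν0 ≤ ν → ν0 ≤ k → ν ≤ N → ∃ n k' : ℕ, n0 ≤ k' ∧ k' ≤ k ∧ 2 * k' ≤ n + 1 ∧
      1 ≤ (r + δ) * Real.log ν ∧ n ≤ ν ∧ 1 ≤ n ∧
      (n : ℝ) * (N / ν * ((r + δ) * Real.log ν) + 1) ≤ N ∧
      (ν : ℝ) ^ (1 / 2 : ℝ) ≤ n ∧ 2 * (n : ℝ) ^ (-(δ / 4)) ≤ (ν : ℝ) ^ (-(δ / 16)) ∧
      min (k : ℝ) ((ν : ℝ) ^ ((r : ℝ) / (r + 1) - ε)) ≤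
        min (k' : ℝ) ((n : ℝ) ^ ((r : ℝ) / (r + 1) - ε / 3)) ∧
      (n : ℝ) ≤ (ν : ℝ) ^ (1 - ε / 3) := by
  have hrR : (2 : ℝ) ≤ r := by exact_mod_cast hr
  have hrpos : (0 : ℝ) < r := by linarith
  have hγ1 : (2 : ℝ) / 3 ≤ (r : ℝ) / (r + 1) := by
    rw [div_le_div_iff₀ (by norm_num) (by positivity)]
    linarith
  have hγ2 : (r : ℝ) / (r + 1) ≤ 1 := by
    rw [div_le_one (by positivity)]
    linarith
  set γ : ℝ := (r : ℝ) / (r + 1) with hγ
  obtain ⟨a1, ha1⟩ := ev_rpow (η := ε / 3) (by positivity) 16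
  obtain ⟨a2, ha2⟩ := ev_rpow (η := ε / 6) (by positivity) (2 * ((r + δ) / (ε / 6)))
  obtain ⟨a3, ha3⟩ := ev_rpow (η := δ / 16) (by positivity) 2
  obtain ⟨a4, ha4⟩ := ev_rpow (η := 1 / 2) (by norm_num) (4 * ((n0 : ℝ) + 1))
  refine ⟨max (max a1 a2) (max (max a3 a4) (max n0 3)), ?_⟩
  intro ν N k hν hk hνN
  have hb1 : a1 ≤ ν := (le_max_left _ _).trans ((le_max_left _ _).trans hν)
  have hb2 : a2 ≤ ν := (le_max_right _ _).trans ((le_max_left _ _).trans hν)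
  have hb3 : a3 ≤ ν := (le_max_left _ _).trans ((le_max_left _ _).trans
    ((le_max_right _ _).trans hν))
  have hb4 : a4 ≤ ν := (le_max_right _ _).trans ((le_max_left _ _).trans
    ((le_max_right _ _).trans hν))
  have hb5 : 3 ≤ ν := (le_max_right _ _).trans ((le_max_right _ _).trans
    ((le_max_right _ _).trans hν))
  have hkn0 : n0 ≤ k := (le_max_left _ _).trans ((le_max_right _ _).trans
    ((le_max_right _ _).trans hk))
  have hνR : (3 : ℝ) ≤ ν := by exact_mod_cast hb5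
  have hνpos : (0 : ℝ) < ν := by linarith
  have hν1 : (1 : ℝ) ≤ ν := by linarith
  have hNR : (ν : ℝ) ≤ N := by exact_mod_cast hνN
  have hNpos : (0 : ℝ) < N := by linarith
  have e1 := ha1 ν hb1
  have e2 := ha2 ν hb2
  have e3 := ha3 ν hb3
  have e4 := ha4 ν hb4
  -- the logarithm
  set L : ℝ := (r + δ) * Real.log ν with hL
  have hlog1 : 1 ≤ Real.log ν := by
    rw [Real.le_log_iff_exp_le hνpos]
    have := Real.exp_one_lt_d9
    linarith
  have hL1 : 1 ≤ L := by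
    rw [hL]
    nlinarith
  have hL2 : 2 * L ≤ (ν : ℝ) ^ (ε / 3) := by
    have h1 : Real.log ν ≤ (ν : ℝ) ^ (ε / 6) / (ε / 6) :=
      Real.log_le_rpow_div hνpos.le (by positivity)
    have h2 : (ν : ℝ) ^ (ε / 3) = (ν : ℝ) ^ (ε / 6) * (ν : ℝ) ^ (ε / 6) := by
      rw [← Real.rpow_add hνpos]
      congr 1
      ring
    have h3 : 0 < (ν : ℝ) ^ (ε / 6) := by positivity
    rw [h2, hL]
    calc 2 * ((r + δ) * Real.log ν) ≤ 2 * ((r + δ) * ((ν : ℝ) ^ (ε / 6) / (ε / 6))) := by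
          apply mul_le_mul_of_nonneg_left _ (by norm_num)
          exact mul_le_mul_of_nonneg_left h1 (by positivity)
      _ = (2 * ((r + δ) / (ε / 6))) * (ν : ℝ) ^ (ε / 6) := by ring
      _ ≤ (ν : ℝ) ^ (ε / 6) * (ν : ℝ) ^ (ε / 6) := mul_le_mul_of_nonneg_right e2 h3.le
  -- the number n
  set n : ℕ := ⌊(ν : ℝ) ^ (1 - ε / 3)⌋₊ with hn
  have hn1 : (n : ℝ) ≤ (ν : ℝ) ^ (1 - ε / 3) := Nat.floor_le (by positivity)
  have hn2 : (ν : ℝ) ^ (1 - ε / 3) - 1 < n := Nat.sub_one_lt_floor _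
  have hsplit : (ν : ℝ) = (ν : ℝ) ^ (1 - ε / 3) * (ν : ℝ) ^ (ε / 3) := by
    rw [← Real.rpow_add hνpos]
    have : 1 - ε / 3 + ε / 3 = (1 : ℝ) := by ring
    rw [this, Real.rpow_one]
  have hhalf : (ν : ℝ) ^ (1 / 2 : ℝ) ≤ (ν : ℝ) ^ (1 - ε / 3) / 4 := by
    -- ν^{1-ε/3} ≥ ν^{1/2} ν^{ε/3}
    have h1 : (ν : ℝ) ^ (1 / 2 : ℝ) * (ν : ℝ) ^ (ε / 3) ≤ (ν : ℝ) ^ (1 - ε / 3) := by
      rw [← Real.rpow_add hνpos]
      apply Real.rpow_le_rpow_of_exponent_le hν1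
      linarith
    have h2 : 0 < (ν : ℝ) ^ (1 / 2 : ℝ) := by positivity
    nlinarith
  have hsq1 : (4 : ℝ) ≤ (ν : ℝ) ^ (1 / 2 : ℝ) := by
    have : (0 : ℝ) ≤ n0 := Nat.cast_nonneg _
    linarith
  have hn3 : (ν : ℝ) ^ (1 / 2 : ℝ) ≤ n := by linarith
  have hn4 : (ν : ℝ) ^ (1 - ε / 3) / 2 ≤ n := by linarith
  have hn1N : 1 ≤ n := by
    have : (1 : ℝ) ≤ n := by linarith
    exact_mod_cast this
  have hnpos : (0 : ℝ) < n := by exact_mod_cast hn1N
  have hnν : n ≤ ν := by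
    have h1 : (n : ℝ) ≤ ν := by
      refine hn1.trans ?_
      have : (ν : ℝ) ^ (1 - ε / 3) ≤ (ν : ℝ) ^ (1 : ℝ) :=
        Real.rpow_le_rpow_of_exponent_le hν1 (by linarith)
      rwa [Real.rpow_one] at this
    exact_mod_cast h1
  have hdiv : ((n / 2 : ℕ) : ℝ) ≥ (n : ℝ) / 4 := by
    have h1 : n ≤ 2 * (n / 2) + 1 := by omega
    have h2 : 4 ≤ n := by
      have : (4 : ℝ) ≤ n := by linarith
      exact_mod_cast this
    have h3 : n ≤ 4 * (n / 2) := by omega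
    have h4 : (n : ℝ) ≤ 4 * ((n / 2 : ℕ) : ℝ) := by exact_mod_cast h3
    linarith
  refine ⟨n, min k (n / 2), ?_, min_le_left _ _, ?_, hL1, hnν, hn1N, ?_, hn3, ?_, ?_, hn1⟩
  · refine le_min hkn0 ?_
    have h1 : (n0 : ℝ) ≤ ((n / 2 : ℕ) : ℝ) := by
      have h2 : (n0 : ℝ) + 1 ≤ (n : ℝ) / 4 := by linarith
      linarith
    exact_mod_cast h1
  · have : min k (n / 2) ≤ n / 2 := min_le_right _ _
    omega
  · -- n (N/ν L + 1) ≤ N
    have h1 : (n : ℝ) * (N / ν * L) ≤ N / 2 := by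
      have h2 : (n : ℝ) * (2 * L) ≤ ν := by
        calc (n : ℝ) * (2 * L) ≤ (ν : ℝ) ^ (1 - ε / 3) * (ν : ℝ) ^ (ε / 3) :=
              mul_le_mul hn1 hL2 (by positivity) (by positivity)
          _ = ν := hsplit.symm
      have h3 : (n : ℝ) * (N / ν * L) = (N / 2) * ((n * (2 * L)) / ν) := by
        field_simp
      rw [h3]
      have h4 : (n : ℝ) * (2 * L) / ν ≤ 1 := by
        rw [div_le_one hνpos]
        exact h2
      calc (N : ℝ) / 2 * ((n * (2 * L)) / ν) ≤ N / 2 * 1 :=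
            mul_le_mul_of_nonneg_left h4 (by positivity)
        _ = N / 2 := by ring
    have h2 : (n : ℝ) ≤ N / 2 := by
      have h3 : (ν : ℝ) ^ (1 - ε / 3) * 2 ≤ ν := by
        calc (ν : ℝ) ^ (1 - ε / 3) * 2 ≤ (ν : ℝ) ^ (1 - ε / 3) * (ν : ℝ) ^ (ε / 3) :=
              mul_le_mul_of_nonneg_left (by linarith) (by positivity)
          _ = ν := hsplit.symm
      linarith
    have h3 : (n : ℝ) * (N / ν * L + 1) = n * (N / ν * L) + n := by ring
    rw [h3]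
    linarith
  · -- the gap
    have h1 : (n : ℝ) ^ (-(δ / 4)) ≤ (ν : ℝ) ^ (-(δ / 8)) := by
      have h2 : ((ν : ℝ) ^ (1 / 2 : ℝ)) ^ (δ / 4) ≤ (n : ℝ) ^ (δ / 4) :=
        Real.rpow_le_rpow (by positivity) hn3 (by positivity)
      rw [← Real.rpow_mul hνpos.le] at h2
      have h3 : (1 / 2 : ℝ) * (δ / 4) = δ / 8 := by ring
      rw [h3] at h2
      rw [Real.rpow_neg hnpos.le, Real.rpow_neg hνpos.le]
      exact inv_anti₀ (by positivity) h2
    have h4 : (ν : ℝ) ^ (-(δ / 16)) = (ν : ℝ) ^ (δ / 16) * (ν : ℝ) ^ (-(δ / 8)) := by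
      rw [← Real.rpow_add hνpos]
      congr 1
      ring
    rw [h4]
    exact mul_le_mul e3 h1 (by positivity) (by positivity)
  · -- the exponent
    have hγε : 0 ≤ γ - ε / 3 := by linarith
    have h1 : (ν : ℝ) ^ (γ - ε) ≤ (n : ℝ) ^ (γ - ε / 3) := by
      have h2 : ((ν : ℝ) ^ (1 - ε / 3) / 2) ^ (γ - ε / 3) ≤ (n : ℝ) ^ (γ - ε / 3) :=
        Real.rpow_le_rpow (by positivity) hn4 hγε
      refine le_trans ?_ h2
      rw [Real.div_rpow (by positivity) (by norm_num), ← Real.rpow_mul hνpos.le]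
      have h3 : (2 : ℝ) ^ (γ - ε / 3) ≤ 2 := by
        calc (2 : ℝ) ^ (γ - ε / 3) ≤ (2 : ℝ) ^ (1 : ℝ) :=
              Real.rpow_le_rpow_of_exponent_le (by norm_num) (by linarith)
          _ = 2 := Real.rpow_one _
      have h4 : (ν : ℝ) ^ (γ - 2 * ε / 3) ≤ (ν : ℝ) ^ ((1 - ε / 3) * (γ - ε / 3)) := by
        apply Real.rpow_le_rpow_of_exponent_le hν1
        nlinarith
      have h5 : (ν : ℝ) ^ (γ - 2 * ε / 3) = (ν : ℝ) ^ (ε / 3) * (ν : ℝ) ^ (γ - ε) := by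
        rw [← Real.rpow_add hνpos]
        congr 1
        ring
      rw [le_div_iff₀ (by positivity)]
      have h6 : 0 < (ν : ℝ) ^ (γ - ε) := by positivity
      calc (ν : ℝ) ^ (γ - ε) * (2 : ℝ) ^ (γ - ε / 3) ≤ (ν : ℝ) ^ (γ - ε) * 2 :=
            mul_le_mul_of_nonneg_left h3 h6.le
        _ ≤ (ν : ℝ) ^ (γ - ε) * (ν : ℝ) ^ (ε / 3) :=
            mul_le_mul_of_nonneg_left (by linarith) h6.le
        _ = (ν : ℝ) ^ (γ - 2 * ε / 3) := by rw [h5, mul_comm]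
        _ ≤ _ := h4
    have h2 : (ν : ℝ) ^ (γ - ε) ≤ ((n / 2 : ℕ) : ℝ) := by
      have h3 : (ν : ℝ) ^ (γ - ε) * 8 ≤ (ν : ℝ) ^ (1 - ε / 3) := by
        calc (ν : ℝ) ^ (γ - ε) * 8 ≤ (ν : ℝ) ^ (γ - ε) * (ν : ℝ) ^ (ε / 3) :=
              mul_le_mul_of_nonneg_left (by linarith) (by positivity)
          _ = (ν : ℝ) ^ (γ - ε + ε / 3) := by rw [← Real.rpow_add hνpos]
          _ ≤ (ν : ℝ) ^ (1 - ε / 3) := by
              apply Real.rpow_le_rpow_of_exponent_le hν1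
              linarith
      linarith
    rw [Nat.cast_min]
    refine le_min (le_min (min_le_left _ _) ?_) ?_
    · exact (min_le_right _ _).trans h2
    · exact (min_le_right _ _).trans h1

/-- the lower bound -/
theorem cnt_fault (r : ℕ) (hr : 2 ≤ r) (ε : ℝ) (hε : 0 < ε) :
    ∃ δ : ℝ, 0 < δ ∧ ∃ ν0 : ℕ, ∀ ν N D : ℕ, ν0 ≤ ν → 0 < D → D * ν ^ r ≤ N ^ r →
      (ν : ℝ) ^ (1 + (r : ℝ) / (r + 1)) ≤ N → ∃ A : ℕ,
      ∀ (R : Type) [Fintype R] [Nonempty R] (C : R → RC (Cla N r × Bool))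
        (A0 : ℝ) (s : ℕ), (∀ ρ, (C ρ).T = ∅) → (∀ ρ, (C ρ).S ≤ s) →
        (∀ x : Cla N r → Bool, {α | Sats x α}.ncard ≤ 2 ^ A → (A0 + (ν : ℝ) ^ (-δ)) *
          (Fintype.card R * (D : ℝ) ^ Fintype.card (Cla N r)) ≤
          ({z : R × (Cla N r → Fin D) | (C z.1).acc (lit x (Flt z.2))}.ncard : ℝ)) →
        (∀ x : Cla N r → Bool, 2 ^ (A + N / ν) ≤ {α | Sats x α}.ncard →
          ({ρ : R | (C ρ).acc (lit x ∅)}.ncard : ℝ) ≤ A0 * Fintype.card R) →
        (ν : ℝ) ^ (δ * (ν : ℝ) ^ ((r : ℝ) / (r + 1) - ε)) ≤ s := by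
  -- it suffices to consider small ε
  wlog hε1 : ε ≤ 1 / 2 with Hw
  · obtain ⟨δ, hδ, ν0, H⟩ := Hw r hr (1 / 2) (by norm_num) le_rfl
    refine ⟨δ, hδ, max ν0 1, ?_⟩
    intro ν N D hν hD hDN hνN
    obtain ⟨A, hA⟩ := H ν N D ((le_max_left _ _).trans hν) hD hDN hνN
    refine ⟨A, ?_⟩
    intro R _ _ C A0 s hT hs hyes hno
    refine le_trans ?_ (hA R C A0 s hT hs hyes hno)
    have h1 : (1 : ℝ) ≤ ν := by exact_mod_cast (le_max_right _ _).trans hν
    apply Real.rpow_le_rpow_of_exponent_le h1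
    apply mul_le_mul_of_nonneg_left _ hδ.le
    apply Real.rpow_le_rpow_of_exponent_le h1
    push Not at hε1
    linarith
  have hrpos : 0 < r := by omega
  have hrR : (2 : ℝ) ≤ r := by exact_mod_cast hr
  have hrRpos : (0 : ℝ) < r := by linarith
  obtain ⟨b2, hb2, δ0, hδ0, l0, H⟩ := pars_exist2 r hr (ε / 3) (by positivity)
  set δ : ℝ := min δ0 (ε / 12) with hδdef
  have hδ : 0 < δ := lt_min hδ0 (by positivity)
  have hδ0' : δ ≤ δ0 := min_le_left _ _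
  have hδε : δ ≤ ε / 12 := min_le_right _ _
  obtain ⟨l1, Hab⟩ := absorb hδ
  obtain ⟨k0, Hk⟩ := choose_l r hr (ε / 3) (by positivity) (max l0 (max l1 1))
  obtain ⟨ν0, Hn⟩ := choose_n2 hε hε1 hδ r hr k0
  set c1 : ℝ := 4 * (2 / (ε / 12) + 1) with hc1
  obtain ⟨a1, ha1⟩ := ev_rpow (η := ε / 6) (by positivity) (c1 + 3)
  refine ⟨δ / 16, by positivity, max (max ν0 a1) 1, ?_⟩
  intro ν N D hν hD hDN hνN'
  have hν0 : ν0 ≤ ν := (le_max_left _ _).trans ((le_max_left _ _).trans hν)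
  have hνa : a1 ≤ ν := (le_max_right _ _).trans ((le_max_left _ _).trans hν)
  have hν1 : 1 ≤ ν := (le_max_right _ _).trans hν
  have hνR : (1 : ℝ) ≤ ν := by exact_mod_cast hν1
  have hνpos : (0 : ℝ) < ν := by linarith
  have hνN : ν ≤ N := by
    have h1 : ν ^ r ≤ N ^ r := (Nat.le_mul_of_pos_left _ hD).trans hDN
    exact (Nat.pow_le_pow_iff_left hrpos.ne').mp h1
  have hNR : (ν : ℝ) ≤ N := by exact_mod_cast hνN
  have hNpos : (0 : ℝ) < N := by linarith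
  set γ : ℝ := (r : ℝ) / (r + 1) with hγ
  have hγ1 : γ ≤ 1 := by
    rw [hγ, div_le_one (by positivity)]
    linarith
  have hγ0 : 0 < γ := by rw [hγ]; positivity
  obtain ⟨n, k', hk'0, hk'k, hk'n, hL1, hnν, hn1, hnN, hnhalf, hgap, hmin, hnup⟩ :=
    Hn ν N N hν0 (hν0.trans hνN) hνN
  obtain ⟨l, hl, hlk, -, hln, hminl⟩ := Hk n k' hk'0 hk'n
  have hnR : (1 : ℝ) ≤ n := by exact_mod_cast hn1
  have hnpos : (0 : ℝ) < n := by linarith
  have hll0 : l0 ≤ l := (le_max_left _ _).trans hl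
  have hll1 : l1 ≤ l := (le_max_left _ _).trans ((le_max_right _ _).trans hl)
  have hl1 : 1 ≤ l := (le_max_right _ _).trans ((le_max_right _ _).trans hl)
  have hlR : (1 : ℝ) ≤ l := by exact_mod_cast hl1
  obtain ⟨b, q, M, m, s', w, m0, f1, f2, f3, f4, f5⟩ := H n l hll0 hln
  set t : ℕ := Nat.log 2 q with ht
  have hq0 : q ≠ 0 := by omega
  have ht1 : 2 ^ t ≤ q := Nat.pow_log_le_self 2 hq0
  have ht2 : q ≤ 2 * 2 ^ t := by
    have h1 : q < 2 ^ (t + 1) := Nat.lt_pow_succ_log_self (by norm_num) q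
    rw [pow_succ] at h1
    omega
  obtain ⟨P, f6⟩ := f5 (2 ^ t) ht1 ht2
  have hmM : m ≤ M := by
    have := P.hM
    omega
  have hMpos : 0 < M := by
    have := P.hm
    omega
  -- the number of copies
  set m' : ℕ := ⌈(n : ℝ) ^ δ⌉₊ with hm'def
  have hm'1 : (n : ℝ) ^ δ ≤ m' := Nat.le_ceil _
  have hnδ1 : (1 : ℝ) ≤ (n : ℝ) ^ δ := Real.one_le_rpow hnR hδ.le
  have hm'2 : (m' : ℝ) ≤ 2 * (n : ℝ) ^ δ := by
    have h1 : (m' : ℝ) < (n : ℝ) ^ δ + 1 := Nat.ceil_lt_add_one (by positivity)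
    linarith
  have hm'pos : 0 < m' := by
    have h5 : (1 : ℝ) ≤ m' := hnδ1.trans hm'1
    exact_mod_cast h5
  have hm'm0 : m' ≤ m0 := by
    rw [hm'def, Nat.ceil_le]
    exact (Real.rpow_le_rpow_of_exponent_le hnR hδ0').trans f3
  have h2 : 2 * (m' * (M * (r * (2 ^ t) ^ b2))) ≤ n := by
    refine le_trans ?_ f2
    apply Nat.mul_le_mul_left
    apply Nat.mul_le_mul hm'm0
    apply Nat.mul_le_mul_left
    apply Nat.mul_le_mul_left
    exact Nat.pow_le_pow_left ht1 b2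
  have hlnN : l ≤ n := by
    have h1 : (l : ℝ) ≤ n := by
      refine le_trans ?_ hln
      calc (l : ℝ) = (l : ℝ) ^ (1 : ℝ) := (Real.rpow_one _).symm
        _ ≤ _ := by
          apply Real.rpow_le_rpow_of_exponent_le hlR
          have h3 : 0 < 1 / (r : ℝ) := by positivity
          linarith
    exact_mod_cast h1
  have hj0 := P.j0_le hr f1
  obtain ⟨g1, g2, g3⟩ := Hab n l (2 ^ t) m (w / (2 * b) / b + 1) hll1 hlnN
    (Nat.le_add_left 1 _) hj0 (fun z hz => f6 z (lt_of_lt_of_le hz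
      (Real.rpow_le_rpow_of_exponent_le hnR (mul_le_mul_of_nonneg_right hδ0'
        (Nat.cast_nonneg _)))))
  -- the number of places
  set L : ℝ := (r + δ) * Real.log ν with hL
  set κ : ℕ := ⌈(N : ℝ) / ν * L⌉₊ with hκdef
  have hκ1 : (N : ℝ) / ν * L ≤ κ := Nat.le_ceil _
  have hκ2 : (κ : ℝ) ≤ N / ν * L + 1 := (Nat.ceil_lt_add_one (by positivity)).le
  have hκpos : 0 < κ := by
    rw [hκdef, Nat.ceil_pos]
    positivity
  have hκD : (D : ℝ) * L ≤ (κ : ℝ) ^ r := by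
    have h5 : (D : ℝ) ≤ (N / ν) ^ r := by
      rw [div_pow, le_div_iff₀ (by positivity)]
      exact_mod_cast hDN
    have h6 : L ≤ L ^ r := le_self_pow₀ hL1 hrpos.ne'
    calc (D : ℝ) * L ≤ (N / ν) ^ r * L ^ r :=
          mul_le_mul h5 h6 (by positivity) (by positivity)
      _ = (N / ν * L) ^ r := (mul_pow _ _ _).symm
      _ ≤ (κ : ℝ) ^ r := pow_le_pow_left₀ (by positivity) hκ1 r
  have hbad := places (X := m' * (M * (2 ^ t) ^ (r * b2))) (δ := δ / 4) (L := L) hD hn1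
    (card_bits hrpos hm'pos hMpos h2) (by
      have h5 : Real.log n ≤ Real.log ν := Real.log_le_log hnpos (by exact_mod_cast hnν)
      have h6 : 0 ≤ Real.log n := Real.log_nonneg hnR
      have h7 : 0 ≤ Real.log ν := Real.log_nonneg hνR
      rw [hL]
      calc ((r : ℝ) + δ / 4) * Real.log n ≤ (r + δ) * Real.log n := by
            apply mul_le_mul_of_nonneg_right _ h6
            linarith
        _ ≤ (r + δ) * Real.log ν := mul_le_mul_of_nonneg_left h5 (by positivity)) hκD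
  have hnκ : n * κ ≤ N := by
    have h5 : ((n * κ : ℕ) : ℝ) ≤ N := by
      push_cast
      exact (mul_le_mul_of_nonneg_left hκ2 hnpos.le).trans hnN
    exact_mod_cast h5
  -- the weights
  have hnN1 : n ≤ N := hnν.trans hνN
  set T : ℕ := N / n - 1 with hTdef
  have hNn1 : 1 ≤ N / n := (Nat.one_le_div_iff hn1).mpr hnN1
  have hT1 : T + 1 = N / n := by omega
  have hnT : n * (T + 1) ≤ N := by
    rw [hT1]
    exact Nat.mul_div_le N n
  set B : ℕ := m' * (M * r) with hB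
  have hB1 : 1 ≤ B := Nat.mul_pos hm'pos (Nat.mul_pos hMpos hrpos)
  have hvar : m' * (m * t) + B * ((2 ^ t) ^ b2 * (κ + T)) ≤ N := by
    have e1 : m' * (m * t) ≤ m' * (M * (r * (2 ^ t) ^ b2)) := by
      apply Nat.mul_le_mul_left
      apply Nat.mul_le_mul hmM
      calc t ≤ 2 ^ t := Nat.lt_two_pow_self.le
        _ ≤ (2 ^ t) ^ b2 := Nat.le_self_pow (by omega) _
        _ ≤ r * (2 ^ t) ^ b2 := Nat.le_mul_of_pos_left _ hrpos
    set W := m' * (M * (r * (2 ^ t) ^ b2)) with hW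
    have e2 : B * ((2 ^ t) ^ b2 * (κ + T)) = W * (κ + T) := by
      rw [hB, hW]
      ring
    rw [e2]
    have e3 : 2 * (m' * (m * t) + W * (κ + T)) ≤ 2 * N := by
      calc 2 * (m' * (m * t) + W * (κ + T)) ≤ 2 * (W + W * (κ + T)) := by omega
        _ = (2 * W) * κ + (2 * W) * (T + 1) := by ring
        _ ≤ n * κ + n * (T + 1) :=
            Nat.add_le_add (Nat.mul_le_mul_right _ h2) (Nat.mul_le_mul_right _ h2)
        _ ≤ 2 * N := by omega
    omega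
  set U : ℕ := N - (m' * (m * t) + B * ((2 ^ t) ^ b2 * (κ + T))) with hU
  -- the weights are large
  have htn : (t : ℝ) + 2 ≤ 2 * ((2 / (ε / 12) + 1) * (n : ℝ) ^ (ε / 12)) := by
    have h5 : q ≤ n := by
      have h10 : q ≤ m0 * (M * (r * q ^ b2)) := by
        have hm0 : 0 < m0 := lt_of_lt_of_le hm'pos hm'm0
        calc q ≤ q ^ b2 := Nat.le_self_pow (by omega) _
          _ ≤ r * q ^ b2 := Nat.le_mul_of_pos_left _ (by omega)
          _ ≤ M * (r * q ^ b2) := Nat.le_mul_of_pos_left _ (by omega)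
          _ ≤ m0 * (M * (r * q ^ b2)) := Nat.le_mul_of_pos_left _ (by omega)
      omega
    have h6 : t ≤ Nat.log 2 n := Nat.log_mono_right h5
    have h7 : (t : ℝ) ≤ Nat.log 2 n := by exact_mod_cast h6
    have h8 := natlog_le (η := ε / 12) (by positivity) hn1
    have h9 : (0 : ℝ) ≤ Nat.log 2 n := Nat.cast_nonneg _
    linarith
  have hl2 : (l : ℝ) ≤ (n : ℝ) ^ γ := by
    have h5 : (l : ℝ) ^ (1 / γ) ≤ n := by
      refine le_trans ?_ hln
      apply Real.rpow_le_rpow_of_exponent_le hlR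
      have h6 : 1 / γ = 1 + 1 / (r : ℝ) := by
        rw [hγ]
        field_simp
      rw [h6]
      linarith
    have h6 : ((l : ℝ) ^ (1 / γ)) ^ γ ≤ (n : ℝ) ^ γ :=
      Real.rpow_le_rpow (by positivity) h5 hγ0.le
    rwa [← Real.rpow_mul (by positivity), one_div_mul_cancel hγ0.ne', Real.rpow_one] at h6
  have hlow : (ν : ℝ) ^ γ ≤ N / ν := by
    rw [le_div_iff₀ hνpos]
    calc (ν : ℝ) ^ γ * ν = (ν : ℝ) ^ (1 + γ) := by
          rw [Real.rpow_add hνpos, Real.rpow_one, mul_comm]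
      _ ≤ N := hνN'
  have hTlarge : m' * (m * t) + 2 * B + N / ν ≤ T := by
    have e1 : ((m' * (m * t) + 2 * B : ℕ) : ℝ) ≤ (N / ν) * (m' * (t + 2)) := by
      have e2 : m' * (m * t) + 2 * B ≤ l * (m' * (t + 2)) := by
        have e3 : M * r ≤ l := by rw [mul_comm]; exact f1
        have e4 : m ≤ l := by
          have : M * 1 ≤ M * r := Nat.mul_le_mul_left _ hrpos
          omega
        calc m' * (m * t) + 2 * B ≤ m' * (l * t) + 2 * (m' * l) :=
              Nat.add_le_add (Nat.mul_le_mul_left _ (Nat.mul_le_mul_right _ e4))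
                (Nat.mul_le_mul_left _ (Nat.mul_le_mul_left _ e3))
          _ = l * (m' * (t + 2)) := by ring
      have e3 : ((m' * (m * t) + 2 * B : ℕ) : ℝ) ≤ ((l * (m' * (t + 2)) : ℕ) : ℝ) := by
        exact_mod_cast e2
      refine e3.trans ?_
      push_cast
      apply mul_le_mul_of_nonneg_right _ (by positivity)
      refine hl2.trans (le_trans ?_ hlow)
      exact Real.rpow_le_rpow hnpos.le (by exact_mod_cast hnν) hγ0.le
    have e2 : (m' : ℝ) * (t + 2) + 3 ≤ (ν : ℝ) ^ (ε / 3) := by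
      have e3 : (m' : ℝ) * (t + 2) ≤ c1 * (ν : ℝ) ^ (ε / 6) := by
        calc (m' : ℝ) * (t + 2) ≤ (2 * (n : ℝ) ^ δ) *
              (2 * ((2 / (ε / 12) + 1) * (n : ℝ) ^ (ε / 12))) :=
              mul_le_mul hm'2 htn (by positivity) (by positivity)
          _ = c1 * ((n : ℝ) ^ δ * (n : ℝ) ^ (ε / 12)) := by rw [hc1]; ring
          _ ≤ c1 * (ν : ℝ) ^ (ε / 6) := by
              apply mul_le_mul_of_nonneg_left _ (by positivity)
              rw [← Real.rpow_add hnpos]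
              calc (n : ℝ) ^ (δ + ε / 12) ≤ (n : ℝ) ^ (ε / 6) :=
                    Real.rpow_le_rpow_of_exponent_le hnR (by linarith)
                _ ≤ (ν : ℝ) ^ (ε / 6) :=
                    Real.rpow_le_rpow hnpos.le (by exact_mod_cast hnν) (by positivity)
      have e4 : (1 : ℝ) ≤ (ν : ℝ) ^ (ε / 6) := Real.one_le_rpow hνR (by positivity)
      have e5 : (ν : ℝ) ^ (ε / 3) = (ν : ℝ) ^ (ε / 6) * (ν : ℝ) ^ (ε / 6) := by
        rw [← Real.rpow_add hνpos]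
        congr 1
        ring
      have e6 := ha1 ν hνa
      rw [e5]
      calc (m' : ℝ) * (t + 2) + 3 ≤ c1 * (ν : ℝ) ^ (ε / 6) + 3 * (ν : ℝ) ^ (ε / 6) := by
            linarith
        _ = (c1 + 3) * (ν : ℝ) ^ (ε / 6) := by ring
        _ ≤ (ν : ℝ) ^ (ε / 6) * (ν : ℝ) ^ (ε / 6) :=
            mul_le_mul_of_nonneg_right e6 (by positivity)
    have e3 : (N : ℝ) / ν * (ν : ℝ) ^ (ε / 3) ≤ N / n := by
      rw [div_mul_eq_mul_div, div_le_div_iff₀ hνpos hnpos]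
      calc (N : ℝ) * (ν : ℝ) ^ (ε / 3) * n ≤ N * (ν : ℝ) ^ (ε / 3) * (ν : ℝ) ^ (1 - ε / 3) :=
            mul_le_mul_of_nonneg_left hnup (by positivity)
        _ = N * ν := by
            rw [mul_assoc, ← Real.rpow_add hνpos]
            have : ε / 3 + (1 - ε / 3) = (1 : ℝ) := by ring
            rw [this, Real.rpow_one]
    have e4 : (1 : ℝ) ≤ N / ν := by
      rw [le_div_iff₀ hνpos]
      linarith
    have e5 : ((N / ν : ℕ) : ℝ) ≤ (N : ℝ) / ν := Nat.cast_div_le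
    have e6 : (N : ℝ) / n < (N / n : ℕ) + 1 := by
      rw [div_lt_iff₀ hnpos]
      have := Nat.lt_div_mul_add (a := N) (b := n) hn1
      have h7 : N < (N / n + 1) * n := by
        rw [add_mul, one_mul]
        exact this
      exact_mod_cast h7
    have e7 : ((m' * (m * t) + 2 * B + N / ν : ℕ) : ℝ) < ((N / n : ℕ) : ℝ) := by
      push_cast at e1 ⊢
      have e8 : (N : ℝ) / ν * ((m' : ℝ) * (t + 2) + 3) ≤ N / n :=
        (mul_le_mul_of_nonneg_left e2 (by linarith)).trans e3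
      have e9 : (N : ℝ) / ν * ((m' : ℝ) * (t + 2) + 3) =
          N / ν * (m' * (t + 2)) + 3 * (N / ν) := by ring
      rw [e9] at e8
      linarith
    have e8 : m' * (m * t) + 2 * B + N / ν < N / n := by exact_mod_cast e7
    omega
  refine ⟨m' * (m * t) + 2 * B + T * (B - 1) + U, ?_⟩
  intro R _ _ C A0 s hT hs hyes hno
  by_contra hcon
  push Not at hcon
  have hsz : (s : ℝ) < (n : ℝ) ^ (δ / 4 * l) := by
    refine lt_of_lt_of_le hcon ?_
    have h5 : (ν : ℝ) ^ (γ - ε) ≤ l := by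
      refine le_trans ?_ (hmin.trans hminl)
      refine le_min ?_ le_rfl
      refine le_trans ?_ hNR
      calc (ν : ℝ) ^ (γ - ε) ≤ (ν : ℝ) ^ (1 : ℝ) :=
            Real.rpow_le_rpow_of_exponent_le hνR (by linarith)
        _ = ν := Real.rpow_one _
    calc (ν : ℝ) ^ (δ / 16 * (ν : ℝ) ^ (γ - ε)) ≤
          (ν : ℝ) ^ ((1 / 2 : ℝ) * (δ / 4 * l)) := by
          apply Real.rpow_le_rpow_of_exponent_le hνR
          have h7 : (0 : ℝ) ≤ l := Nat.cast_nonneg _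
          nlinarith
      _ = ((ν : ℝ) ^ (1 / 2 : ℝ)) ^ (δ / 4 * l) := by rw [← Real.rpow_mul hνpos.le]
      _ ≤ (n : ℝ) ^ (δ / 4 * l) := Real.rpow_le_rpow (by positivity) hnhalf (by positivity)
  refine cnt_fault_param (m' := m') (g := 2 * (n : ℝ) ^ (-(δ / 4)))
    (lo := m' * (m * t) + 2 * B + T * (B - 1) + U)
    (hi := m' * (m * t) + 2 * B + T * (B - 1) + U + N / ν) hr P hκpos hD
    hvar C hT A0 ?_ le_rfl ?_ ?_ hno ?_ ?_ ?_ ?_
  · refine hbad.trans (le_of_eq ?_)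
    ring
  · have h5 : T * B = T * (B - 1) + T := by
      obtain ⟨B', hB'⟩ : ∃ B', B = B' + 1 := ⟨B - 1, by omega⟩
      rw [hB', Nat.add_sub_cancel, Nat.mul_add, Nat.mul_one]
    rw [← hB, ← hU, h5]
    omega
  · intro x hx
    refine le_trans ?_ (hyes x hx)
    apply mul_le_mul_of_nonneg_right _ (by positivity)
    linarith
  · have h5 := g2 m' hm'1
    have h6 : (1 : ℝ) ≤ (n : ℝ) ^ (δ / 4) := Real.one_le_rpow hnR (by positivity)
    linarith
  · intro ρ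
    refine (hs ρ).trans (g3 s hsz).1
  · have h5 : 2 * (n : ℝ) ^ (-(δ / 4)) / 2 = (n : ℝ) ^ (-(δ / 4)) := by ring
    rw [h5]
    exact g1
  · intro ρ
    have h5 := (g3 s hsz).2
    have h6 : ((C ρ).S : ℝ) ≤ s := by exact_mod_cast hs ρ
    have h7 : 16 * ((C ρ).S : ℝ) * 2 ^ (w / (2 * b) / b + 1) ≤
        16 * (s : ℝ) * 2 ^ (w / (2 * b) / b + 1) := by
      apply mul_le_mul_of_nonneg_right _ (by positivity)
      linarith
    have h8 : 2 * (n : ℝ) ^ (-(δ / 4)) / 2 = (n : ℝ) ^ (-(δ / 4)) := by ring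
    rw [h8]
    exact lt_of_le_of_lt h7 h5

end Pool.Agent.Q9h3.UC
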