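import Pool.Agent.Q9h3.UC.Main

/-! Counting satisfying assignments, circuits whose negated inputs are unreliable: few faults
exclude polynomial size. -/

set_option autoImplicit false
set_option linter.unusedSectionVars false
set_option linter.unusedVariables false

namespace Pool.Agent.Q9h3.UC

open Finset Pool.Agent.H560R2 Pool.Agent.W969.MC Pool.Agent.Y630.TF Pool.Agent.Y630.NW
open Pool.Agent.Q9h3.UN (ev_log ev_log_le)

theorem cnt_fault_poly (r : ℕ) (hr : 2 ≤ r) (ε : ℝ) (hε : 0 < ε) (c : ℝ) :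
    ∃ N0 : ℕ, ∀ N D G : ℕ, N0 ≤ N → 0 < D →
      (D : ℝ) * (Real.log N) ^ ((r : ℝ) + 1 + ε) ≤ (N : ℝ) ^ r →
      (G : ℝ) * (Real.log N) ^ (((r : ℝ) + 1 + ε) / r) ≤ N → ∃ A : ℕ,
      ∀ (R : Type) [Fintype R] [Nonempty R] (C : R → RC (Cla N r × Bool))
        (A0 : ℝ) (s : ℕ), (∀ ρ, (C ρ).T = ∅) → (∀ ρ, (C ρ).S ≤ s) →
        (∀ x : Cla N r → Bool, {α | Sats x α}.ncard ≤ 2 ^ A → (A0 + 1 / 3) *
          (Fintype.card R * (D : ℝ) ^ Fintype.card (Cla N r)) ≤
          ({z : R × (Cla N r → Fin D) | (C z.1).acc (lit x (Flt z.2))}.ncard : ℝ)) →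
        (∀ x : Cla N r → Bool, 2 ^ (A + G) ≤ {α | Sats x α}.ncard →
          ({ρ : R | (C ρ).acc (lit x ∅)}.ncard : ℝ) ≤ A0 * Fintype.card R) →
        (N : ℝ) ^ c < s := by
  have hrR : (2 : ℝ) ≤ r := by exact_mod_cast hr
  have hrpos : (0 : ℝ) < r := by linarith
  set B : ℝ := ((r : ℝ) + 1 + ε) / r with hB
  have hB1 : 1 ≤ B := by
    rw [hB, le_div_iff₀ hrpos]
    linarith
  set ε' : ℝ := ε / (2 * (r + 1)) / B with hε'
  have hε'pos : 0 < ε' := by positivity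
  set η : ℝ := ε / (4 * (r + 1)) with hη
  have hηpos : 0 < η := by positivity
  have hexp : B * ((r : ℝ) / (r + 1) - ε') = 1 + 2 * η := by
    have h1 : B * ε' = ε / (2 * (r + 1)) := by
      rw [hε']
      field_simp
    rw [mul_sub, h1, hB, hη]
    field_simp
    ring
  obtain ⟨δ, hδ, ν0, H⟩ := cnt_fault r hr ε' hε'pos
  obtain ⟨ν1, hν1⟩ := ev_rpow (η := δ) hδ 3
  obtain ⟨N1, hN1⟩ := ev_log (η := B) (by linarith) (2 * ((ν0 : ℝ) + ν1 + 3))
  obtain ⟨N2, hN2⟩ := ev_log (η := η) hηpos 2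
  obtain ⟨N3, hN3⟩ := ev_log (η := η) hηpos ((|c| + 1) / δ)
  obtain ⟨N4, hN4⟩ := ev_log_le (B * (1 + (r : ℝ) / (r + 1)))
  refine ⟨max (max N1 N2) (max (max N3 N4) (2 * ν0 + 4)), ?_⟩
  intro N D G hN hD hDN hG
  have a1 := hN1 N ((le_max_left _ _).trans ((le_max_left _ _).trans hN))
  have a2 := hN2 N ((le_max_right _ _).trans ((le_max_left _ _).trans hN))
  have a3 := hN3 N ((le_max_left _ _).trans ((le_max_left _ _).trans
    ((le_max_right _ _).trans hN)))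
  have a4 := hN4 N ((le_max_right _ _).trans ((le_max_left _ _).trans
    ((le_max_right _ _).trans hN)))
  have a5 : 2 * ν0 + 4 ≤ N := (le_max_right _ _).trans ((le_max_right _ _).trans hN)
  have hNR : (4 : ℝ) ≤ N := by exact_mod_cast (by omega : 4 ≤ N)
  have hNpos : (0 : ℝ) < N := by linarith
  have hlog1 : 1 ≤ Real.log N := by
    rw [Real.le_log_iff_exp_le hNpos]
    have := Real.exp_one_lt_d9
    linarith
  have hlog0 : 0 < Real.log N := by linarith
  set lN : ℝ := Real.log N with hlN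
  set ν : ℕ := ⌊lN ^ B⌋₊ with hν
  have hν1' : (ν : ℝ) ≤ lN ^ B := Nat.floor_le (by positivity)
  have hν2 : lN ^ B - 1 < ν := Nat.sub_one_lt_floor _
  have hν3 : lN ^ B / 2 ≤ ν := by
    have : (0 : ℝ) ≤ (ν0 : ℝ) + ν1 := by positivity
    linarith
  have hν4 : (ν0 : ℝ) + ν1 + 3 ≤ ν := by linarith
  have hνν0 : ν0 ≤ ν := by
    have h1 : (ν0 : ℝ) ≤ ν := by
      have : (0 : ℝ) ≤ ν1 := Nat.cast_nonneg _
      linarith
    exact_mod_cast h1
  have hνν1 : ν1 ≤ ν := by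
    have h1 : (ν1 : ℝ) ≤ ν := by
      have : (0 : ℝ) ≤ ν0 := Nat.cast_nonneg _
      linarith
    exact_mod_cast h1
  have hν3R : (3 : ℝ) ≤ ν := by
    have : (0 : ℝ) ≤ (ν0 : ℝ) + ν1 := by positivity
    linarith
  have hνpos : (0 : ℝ) < ν := by linarith
  have hDν : D * ν ^ r ≤ N ^ r := by
    have h1 : (ν : ℝ) ^ r ≤ lN ^ ((r : ℝ) + 1 + ε) := by
      calc (ν : ℝ) ^ r ≤ (lN ^ B) ^ r := pow_le_pow_left₀ hνpos.le hν1' r
        _ = lN ^ ((r : ℝ) + 1 + ε) := by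
          rw [← Real.rpow_natCast, ← Real.rpow_mul hlog0.le]
          congr 1
          rw [hB]
          field_simp
    have h2 : (D : ℝ) * (ν : ℝ) ^ r ≤ (N : ℝ) ^ r :=
      (mul_le_mul_of_nonneg_left h1 (Nat.cast_nonneg _)).trans hDN
    exact_mod_cast h2
  have hνN : (ν : ℝ) ^ (1 + (r : ℝ) / (r + 1)) ≤ N := by
    calc (ν : ℝ) ^ (1 + (r : ℝ) / (r + 1)) ≤ (lN ^ B) ^ (1 + (r : ℝ) / (r + 1)) :=
          Real.rpow_le_rpow hνpos.le hν1' (by positivity)
      _ = lN ^ (B * (1 + (r : ℝ) / (r + 1))) := by rw [← Real.rpow_mul hlog0.le]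
      _ ≤ N / 4 := a4
      _ ≤ N := by linarith
  have hνpos' : 0 < ν := by exact_mod_cast hνpos
  have hGν : G ≤ N / ν := by
    rw [Nat.le_div_iff_mul_le hνpos']
    have h1 : (G : ℝ) * ν ≤ N := (mul_le_mul_of_nonneg_left hν1' (Nat.cast_nonneg _)).trans hG
    exact_mod_cast h1
  obtain ⟨A, hA⟩ := H ν N D hνν0 hD hDν hνN
  refine ⟨A, ?_⟩
  intro R _ _ C A0 s hT hs hyes hno
  have hmain := hA R C A0 s hT hs (by
    intro x hx
    refine le_trans ?_ (hyes x hx)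
    apply mul_le_mul_of_nonneg_right _ (by positivity)
    have h1 : (ν : ℝ) ^ (-δ) ≤ 1 / 3 := by
      rw [Real.rpow_neg hνpos.le, ← one_div]
      exact one_div_le_one_div_of_le (by norm_num) (hν1 ν hνν1)
    linarith) (fun x hx => hno x (le_trans (Nat.pow_le_pow_right (by norm_num) (by omega)) hx))
  refine lt_of_lt_of_le ?_ hmain
  -- the exponent
  have hlow : lN ^ (1 + η) ≤ (ν : ℝ) ^ ((r : ℝ) / (r + 1) - ε') := by
    have hγε : 0 ≤ (r : ℝ) / (r + 1) - ε' := by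
      have h1 : 0 < B * ((r : ℝ) / (r + 1) - ε') := by rw [hexp]; positivity
      have h2 : 0 < B := by linarith
      exact (pos_of_mul_pos_right h1 h2.le).le
    have hγ1 : (r : ℝ) / (r + 1) - ε' ≤ 1 := by
      have h1 : (r : ℝ) / (r + 1) ≤ 1 := by
        rw [div_le_one (by positivity)]
        linarith
      linarith
    have h1 : (lN ^ B / 2) ^ ((r : ℝ) / (r + 1) - ε') ≤ (ν : ℝ) ^ ((r : ℝ) / (r + 1) - ε') :=
      Real.rpow_le_rpow (by positivity) hν3 hγε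
    refine le_trans ?_ h1
    rw [Real.div_rpow (by positivity) (by norm_num), ← Real.rpow_mul hlog0.le, hexp,
      le_div_iff₀ (by positivity)]
    have h2 : (2 : ℝ) ^ ((r : ℝ) / (r + 1) - ε') ≤ 2 := by
      calc (2 : ℝ) ^ ((r : ℝ) / (r + 1) - ε') ≤ (2 : ℝ) ^ (1 : ℝ) :=
            Real.rpow_le_rpow_of_exponent_le (by norm_num) hγ1
        _ = 2 := Real.rpow_one _
    have h3 : lN ^ (1 + 2 * η) = lN ^ (1 + η) * lN ^ η := by
      rw [← Real.rpow_add hlog0]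
      congr 1
      ring
    rw [h3]
    have h4 : 0 < lN ^ (1 + η) := by positivity
    exact mul_le_mul_of_nonneg_left (h2.trans a2) h4.le
  have hνe : Real.exp 1 ≤ ν := by
    have := Real.exp_one_lt_d9
    linarith
  calc (N : ℝ) ^ c = Real.exp (lN * c) := by rw [Real.rpow_def_of_pos hNpos]
    _ < Real.exp (δ * lN ^ (1 + η)) := by
        apply Real.exp_lt_exp.mpr
        rw [Real.rpow_add hlog0, Real.rpow_one]
        have h1 : (|c| + 1) ≤ δ * lN ^ η := by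
          have h2 := mul_le_mul_of_nonneg_left a3 hδ.le
          rwa [mul_div_cancel₀ _ hδ.ne'] at h2
        have h3 : c ≤ |c| := le_abs_self c
        have h4 : c < δ * lN ^ η := by linarith
        calc lN * c < lN * (δ * lN ^ η) := mul_lt_mul_of_pos_left h4 hlog0
          _ = δ * (lN * lN ^ η) := by ring
    _ = (Real.exp 1) ^ (δ * lN ^ (1 + η)) := by rw [← Real.exp_mul, one_mul]
    _ ≤ (ν : ℝ) ^ (δ * lN ^ (1 + η)) :=
        Real.rpow_le_rpow (Real.exp_pos _).le hνe (by positivity)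
    _ ≤ _ := by
        apply Real.rpow_le_rpow_of_exponent_le (by linarith)
        exact mul_le_mul_of_nonneg_left hlow hδ.le

end Pool.Agent.Q9h3.UC
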